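import Mathlib

/-!
# Numerics for the correlation bound
-/

namespace Helper99.XM

open Filter Real

lemma centralBinom_sq (m : ℕ) : (2 * m + 1) * (Nat.centralBinom m) ^ 2 ≤ 16 ^ m := by
  induction m with
  | zero => simp
  | succ m ih =>
    have h := Nat.succ_mul_centralBinom_succ m
    have h2 : (m + 1) ^ 2 * ((2 * (m + 1) + 1) * (Nat.centralBinom (m + 1)) ^ 2)
        = (2 * m + 3) * (2 * (2 * m + 1) * Nat.centralBinom m) ^ 2 := by
      rw [← h]; ring
    have h3 : (m + 1) ^ 2 * ((2 * (m + 1) + 1) * (Nat.centralBinom (m + 1)) ^ 2)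
        ≤ (m + 1) ^ 2 * 16 ^ (m + 1) := by
      rw [h2]
      calc (2 * m + 3) * (2 * (2 * m + 1) * Nat.centralBinom m) ^ 2
          = (2 * m + 3) * (2 * m + 1) * 4 * ((2 * m + 1) * Nat.centralBinom m ^ 2) := by ring
        _ ≤ (2 * m + 3) * (2 * m + 1) * 4 * 16 ^ m := Nat.mul_le_mul_left _ ih
        _ ≤ (4 * (m + 1) ^ 2) * 4 * 16 ^ m := by
            have h4 : (2 * m + 3) * (2 * m + 1) ≤ 4 * (m + 1) ^ 2 := by nlinarith
            exact Nat.mul_le_mul_right _ (Nat.mul_le_mul_right _ h4)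
        _ = (m + 1) ^ 2 * 16 ^ (m + 1) := by ring
    exact Nat.le_of_mul_le_mul_left h3 (by positivity)

/-- `β = C(2m-1, m) / 2^(2m-1) ≤ 1/√(2m+1)` -/
lemma beta_le (m : ℕ) (hm : 1 ≤ m) :
    ((Nat.choose (2 * m - 1) m : ℕ) : ℝ) / 2 ^ (2 * m - 1) ≤ 1 / √(2 * m + 1) := by
  obtain ⟨k, rfl⟩ : ∃ k, m = k + 1 := ⟨m - 1, by omega⟩
  have e0 : 2 * (k + 1) - 1 = 2 * k + 1 := by omega
  rw [e0]
  have h1 : Nat.centralBinom (k + 1) = 2 * Nat.choose (2 * k + 1) (k + 1) := by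
    rw [Nat.centralBinom_eq_two_mul_choose]
    have : 2 * (k + 1) = (2 * k + 1) + 1 := by ring
    rw [this, Nat.choose_succ_succ']
    have : Nat.choose (2 * k + 1) k = Nat.choose (2 * k + 1) (k + 1) :=
      Nat.choose_symm_half k |>.symm
    omega
  have h2 := centralBinom_sq (k + 1)
  rw [h1] at h2
  have h3 : ((2 : ℝ) * ((k : ℝ) + 1) + 1) * (2 * (Nat.choose (2 * k + 1) (k + 1) : ℝ)) ^ 2
      ≤ 16 ^ (k + 1) := by exact_mod_cast h2
  rw [div_le_div_iff₀ (by positivity) (by positivity), one_mul]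
  push_cast
  have h4 : (Nat.choose (2 * k + 1) (k + 1) : ℝ) * √(2 * (k + 1) + 1)
      = √((Nat.choose (2 * k + 1) (k + 1) : ℝ) ^ 2 * (2 * (k + 1) + 1)) := by
    rw [Real.sqrt_mul (by positivity), Real.sqrt_sq (by positivity)]
  rw [h4]
  apply Real.sqrt_le_iff.mpr
  refine ⟨by positivity, ?_⟩
  have h5 : ((2 : ℝ) ^ (2 * k + 1)) ^ 2 = 16 ^ (k + 1) / 4 := by
    have : (16 : ℝ) = 2 ^ 4 := by norm_num
    rw [this, ← pow_mul, ← pow_mul]
    have : 4 * (k + 1) = (2 * k + 1) * 2 + 2 := by ring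
    rw [this, pow_add]
    ring
  rw [h5]
  nlinarith

/-- the final numerical inequality -/
lemma numerics (C : ℝ) : ∀ᶠ n : ℕ in atTop, ∀ m d : ℕ, 1 ≤ m → n ≤ 3 * (2 * m + 1) →
    (d : ℝ) ≤ Real.logb 2 n →
    C * ((d : ℝ) * ((Nat.choose (2 * m - 1) m : ℕ) : ℝ) / 2 ^ (2 * m - 1)) ^ 3 ≤ 1 / n := by
  have h1 : ∀ᶠ x : ℝ in atTop, |C| * (√3) ^ 3 * (Real.logb 2 x) ^ 3 ≤ √x := by
    have h2 : (fun x : ℝ => Real.log x ^ (3 : ℝ)) =o[atTop] fun x => x ^ (1 / 2 : ℝ) :=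
      isLittleO_log_rpow_rpow_atTop 3 (by norm_num)
    have h3 := h2.bound (c := Real.log 2 ^ 3 / (|C| * (√3) ^ 3 + 1)) (by positivity)
    filter_upwards [h3, eventually_ge_atTop 1] with x hx hx1
    have hl : 0 ≤ Real.log x := Real.log_nonneg hx1
    rw [Real.norm_of_nonneg (by positivity), Real.norm_of_nonneg (by positivity),
      ← Real.sqrt_eq_rpow] at hx
    have e1 : Real.log x ^ (3 : ℝ) = Real.log x ^ 3 := by
      rw [← Real.rpow_natCast]; norm_num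
    rw [e1] at hx
    have e2 : Real.logb 2 x = Real.log x / Real.log 2 := rfl
    rw [e2, div_pow]
    have hlog2 : 0 < Real.log 2 := Real.log_pos (by norm_num)
    have hA : 0 ≤ |C| * (√3) ^ 3 := by positivity
    calc |C| * (√3) ^ 3 * (Real.log x ^ 3 / Real.log 2 ^ 3)
        ≤ (|C| * (√3) ^ 3 + 1) * (Real.log x ^ 3 / Real.log 2 ^ 3) := by
          apply mul_le_mul_of_nonneg_right (by linarith) (by positivity)
      _ = (|C| * (√3) ^ 3 + 1) / Real.log 2 ^ 3 * Real.log x ^ 3 := by ring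
      _ ≤ (|C| * (√3) ^ 3 + 1) / Real.log 2 ^ 3 *
            (Real.log 2 ^ 3 / (|C| * (√3) ^ 3 + 1) * √x) := by
          apply mul_le_mul_of_nonneg_left hx (by positivity)
      _ = √x := by
          have : (|C| * (√3) ^ 3 + 1) ≠ 0 := by positivity
          field_simp
  have h4 := tendsto_natCast_atTop_atTop.eventually h1
  filter_upwards [h4, eventually_ge_atTop 1] with n hn hn1 m d hm hnm hd
  have hb := beta_le m hm
  set β : ℝ := ((Nat.choose (2 * m - 1) m : ℕ) : ℝ) / 2 ^ (2 * m - 1) with hβ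
  have hβ0 : 0 ≤ β := by positivity
  have hnpos : (0 : ℝ) < n := by exact_mod_cast hn1
  have h5 : β ≤ √3 / √n := by
    refine hb.trans ?_
    rw [div_le_div_iff₀ (by positivity) (by positivity), one_mul, ← Real.sqrt_mul (by norm_num)]
    apply Real.sqrt_le_sqrt
    exact_mod_cast hnm
  have hd0 : (0 : ℝ) ≤ d := by positivity
  have h6 : (d : ℝ) * ((Nat.choose (2 * m - 1) m : ℕ) : ℝ) / 2 ^ (2 * m - 1) = d * β := by
    rw [hβ]; ring
  rw [h6]
  have h7 : (d * β) ^ 3 ≤ (Real.logb 2 n * (√3 / √n)) ^ 3 := by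
    apply pow_le_pow_left₀ (by positivity)
    exact mul_le_mul hd h5 hβ0 (hd0.trans hd)
  have hs : 0 < √(n : ℝ) := Real.sqrt_pos.mpr hnpos
  calc C * (d * β) ^ 3 ≤ |C| * (d * β) ^ 3 :=
        mul_le_mul_of_nonneg_right (le_abs_self C) (by positivity)
    _ ≤ |C| * (Real.logb 2 n * (√3 / √n)) ^ 3 := mul_le_mul_of_nonneg_left h7 (abs_nonneg C)
    _ = (|C| * (√3) ^ 3 * (Real.logb 2 n) ^ 3) / √n ^ 3 := by
        field_simp
    _ ≤ √n / √n ^ 3 := div_le_div_of_nonneg_right hn (by positivity)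
    _ = 1 / n := by
        have : √(n : ℝ) ^ 3 = √n * n := by
          rw [pow_succ, Real.sq_sqrt hnpos.le]; ring
        rw [this]
        field_simp

end Helper99.XM
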