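import Pool.Agent.helper99.XM.Machine

/-!
# The function computed by the machine is the XOR of three interleaved majorities
-/

namespace Helper99.XM

open Finset

def sgn (b : Bool) : ℤ := if b then 1 else -1

def rep (z : ℤ) : List Bool :=
  if 0 < z then List.replicate z.toNat true else List.replicate (-z).toNat false

lemma add_rep (b : Bool) (z : ℤ) : add b (rep z) = rep (z + sgn b) := by
  rcases lt_trichotomy z 0 with h | h | h
  · obtain ⟨m, rfl⟩ : ∃ m : ℕ, z = -((m : ℤ) + 1) := ⟨(-z - 1).toNat, by omega⟩
    have e1 : rep (-((m : ℤ) + 1)) = List.replicate (m + 1) false := by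
      unfold rep
      rw [if_neg (by omega)]
      congr 1
    rw [e1]
    cases b
    · have : rep (-((m : ℤ) + 1) + sgn false) = List.replicate (m + 2) false := by
        unfold rep sgn
        rw [if_neg (by simp; omega)]
        congr 1
      rw [this]
      simp [add, List.replicate_succ]
    · have : rep (-((m : ℤ) + 1) + sgn true) = List.replicate m false := by
        unfold rep sgn
        rw [if_neg (by simp)]
        congr 1
        simp
      rw [this]
      simp [add, List.replicate_succ]
  · subst h
    cases b
    · simp [rep, sgn, add]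
    · simp [rep, sgn, add]
  · obtain ⟨m, rfl⟩ : ∃ m : ℕ, z = (m : ℤ) + 1 := ⟨(z - 1).toNat, by omega⟩
    have e1 : rep ((m : ℤ) + 1) = List.replicate (m + 1) true := by
      unfold rep
      rw [if_pos (by omega)]
      congr 1
    rw [e1]
    cases b
    · have : rep ((m : ℤ) + 1 + sgn false) = List.replicate m true := by
        unfold rep sgn
        rcases Nat.eq_zero_or_pos m with rfl | hm
        · simp
        · rw [if_pos (by simp; omega)]
          congr 1
          simp
      rw [this]
      simp [add, List.replicate_succ]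
    · have : rep ((m : ℤ) + 1 + sgn true) = List.replicate (m + 2) true := by
        unfold rep sgn
        rw [if_pos (by simp; omega)]
        congr 1
      rw [this]
      simp [add, List.replicate_succ]

lemma rep_zero : rep 0 = [] := by simp [rep]

lemma top_rep (z : ℤ) : top (rep z) = decide (0 < z) := by
  unfold top rep
  by_cases h : 0 < z
  · rw [if_pos h]
    obtain ⟨m, hm⟩ : ∃ m : ℕ, z.toNat = m + 1 := ⟨z.toNat - 1, by omega⟩
    rw [hm]
    simp [List.replicate_succ, h]
  · rw [if_neg h]
    rcases hm : (-z).toNat with _ | m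
    · simp [h]
    · simp [List.replicate_succ, h]

/-- the signed count of the first `N` entries of the class `j` -/
def cnt (l : List Bool) (j N : ℕ) : ℤ := ∑ i ∈ range N, sgn (l.getD (3 * i + j) false)

lemma cnt_six (a b c d e f : Bool) (l : List Bool) (j N : ℕ) :
    cnt (a :: b :: c :: d :: e :: f :: l) j (N + 2) =
      cnt l j N + sgn ((a :: b :: c :: d :: e :: f :: l).getD j false)
        + sgn ((a :: b :: c :: d :: e :: f :: l).getD (3 + j) false) := by
  unfold cnt
  rw [sum_range_succ', sum_range_succ']
  have : ∀ i : ℕ, (a :: b :: c :: d :: e :: f :: l).getD (3 * (i + 1 + 1) + j) false =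
      l.getD (3 * i + j) false := by
    intro i
    have : 3 * (i + 1 + 1) + j = (3 * i + j) + 1 + 1 + 1 + 1 + 1 + 1 := by ring
    rw [this]
    simp only [List.getD_cons_succ]
  simp only [this]
  have e1 : 3 * (0 + 1) + j = 3 + j := by ring
  have e2 : 3 * 0 + j = j := by ring
  rw [e1, e2]
  ring

lemma cnt_three (a b c : Bool) (l : List Bool) (j N : ℕ) :
    cnt (a :: b :: c :: l) j (N + 1) =
      cnt l j N + sgn ((a :: b :: c :: l).getD j false) := by
  unfold cnt
  rw [sum_range_succ']
  have : ∀ i : ℕ, (a :: b :: c :: l).getD (3 * (i + 1) + j) false =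
      l.getD (3 * i + j) false := by
    intro i
    have : 3 * (i + 1) + j = (3 * i + j) + 1 + 1 + 1 := by ring
    rw [this]
    simp only [List.getD_cons_succ]
  simp only [this]
  have e2 : 3 * 0 + j = j := by ring
  rw [e2]

lemma groups_rep (n : ℕ) : ∀ (l : List Bool) (A B C : ℤ), l.length ≤ n →
    groups l (rep A, rep B, rep C) =
      (rep (A + cnt l 0 (2 * (l.length / 6))), rep (B + cnt l 1 (2 * (l.length / 6))),
        rep (C + cnt l 2 (2 * (l.length / 6)))) := by
  induction n using Nat.strong_induction_on with
  | _ n ih =>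
    intro l A B C hl
    by_cases h : l.length < 6
    · rw [groups_short _ _ h, Nat.div_eq_of_lt h]
      simp [cnt]
    · rcases l with _ | ⟨a, _ | ⟨b, _ | ⟨c, _ | ⟨d, _ | ⟨e, _ | ⟨f, l⟩⟩⟩⟩⟩⟩
      all_goals first
        | (exfalso; apply h; simp; done)
        | skip
      simp only [List.length_cons] at hl
      have e0 : (a :: b :: c :: d :: e :: f :: l).length / 6 = l.length / 6 + 1 := by
        simp only [List.length_cons]
        omega
      have e1 : 2 * (l.length / 6 + 1) = 2 * (l.length / 6) + 2 := by ring
      rw [e0, e1, cnt_six, cnt_six, cnt_six]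
      simp only [groups, add_rep]
      rw [ih (n - 6) (by omega) l _ _ _ (by omega)]
      refine Prod.ext ?_ (Prod.ext ?_ ?_)
      · simp only [List.getD_cons_zero, List.getD_cons_succ]
        congr 1
        ring
      · have h1 : (a :: b :: c :: d :: e :: f :: l).getD 1 false = b := rfl
        have h2 : (a :: b :: c :: d :: e :: f :: l).getD (3 + 1) false = e := rfl
        simp only [h1, h2]
        congr 1
        ring
      · have h1 : (a :: b :: c :: d :: e :: f :: l).getD 2 false = c := rfl
        have h2 : (a :: b :: c :: d :: e :: f :: l).getD (3 + 2) false = f := rfl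
        simp only [h1, h2]
        congr 1
        ring

lemma F_eq (l : List Bool) (h : 3 ≤ l.length) :
    F l = xor (decide (0 < cnt l 0 (2 * ((l.length - 3) / 6) + 1)))
      (xor (decide (0 < cnt l 1 (2 * ((l.length - 3) / 6) + 1)))
        (decide (0 < cnt l 2 (2 * ((l.length - 3) / 6) + 1)))) := by
  rcases l with _ | ⟨a, _ | ⟨b, _ | ⟨c, l⟩⟩⟩
  all_goals first
    | (exfalso; simp at h; done)
    | skip
  have e0 : ((a :: b :: c :: l).length - 3) / 6 = l.length / 6 := by
    simp only [List.length_cons]
    omega
  rw [e0, cnt_three, cnt_three, cnt_three]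
  have e1 : F (a :: b :: c :: l) = out (groups l (add a (rep 0), add b (rep 0), add c (rep 0))) := by
    rw [rep_zero]
    rfl
  rw [e1, add_rep, add_rep, add_rep, groups_rep l.length l _ _ _ le_rfl]
  simp only [out, top_rep]
  have h0 : (a :: b :: c :: l).getD 0 false = a := rfl
  have h1 : (a :: b :: c :: l).getD 1 false = b := rfl
  have h2 : (a :: b :: c :: l).getD 2 false = c := rfl
  rw [h0, h1, h2]
  congr 1
  · congr 1
    simp only [eq_iff_iff]
    constructor <;> intro h' <;> linarith
  · congr 1
    · congr 1
      simp only [eq_iff_iff]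
      constructor <;> intro h' <;> linarith
    · congr 1
      simp only [eq_iff_iff]
      constructor <;> intro h' <;> linarith

/-- majority -/
def maj {N : ℕ} (y : Fin N → Bool) : Bool := decide (N < 2 * (univ.filter fun i => y i = true).card)

lemma sum_sgn {N : ℕ} (y : Fin N → Bool) :
    ∑ i, sgn (y i) = 2 * ((univ.filter fun i => y i = true).card : ℤ) - N := by
  have h1 : ∀ i, sgn (y i) = 2 * (if y i = true then 1 else 0) - 1 := by
    intro i
    cases y i <;> simp [sgn]
  simp only [h1, sum_sub_distrib, ← mul_sum]
  simp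

lemma cnt_eq_maj (n N j : ℕ) (x : Fin n → Bool) (h : ∀ i < N, 3 * i + j < n) :
    decide (0 < cnt (List.ofFn x) j N) = maj (fun i : Fin N => x ⟨3 * i + j, h i i.2⟩) := by
  have h1 : cnt (List.ofFn x) j N = ∑ i : Fin N, sgn (x ⟨3 * i + j, h i i.2⟩) := by
    unfold cnt
    rw [← Fin.sum_univ_eq_sum_range (fun i => sgn ((List.ofFn x).getD (3 * i + j) false)) N]
    refine sum_congr rfl fun i _ => ?_
    congr 1
    rw [List.getD_eq_getElem _ _ (by simpa using h i i.2)]
    simp
  rw [h1, sum_sgn]
  unfold maj
  congr 1
  simp only [eq_iff_iff]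
  constructor <;> intro h' <;> omega

theorem F_ofFn (n : ℕ) (hn : 3 ≤ n) (x : Fin n → Bool) :
    F (List.ofFn x) =
      xor (maj fun i : Fin (2 * ((n - 3) / 6) + 1) => x ⟨3 * i + 0, by omega⟩)
        (xor (maj fun i : Fin (2 * ((n - 3) / 6) + 1) => x ⟨3 * i + 1, by omega⟩)
          (maj fun i : Fin (2 * ((n - 3) / 6) + 1) => x ⟨3 * i + 2, by omega⟩)) := by
  rw [F_eq _ (by simpa using hn)]
  simp only [List.length_ofFn]
  rw [cnt_eq_maj n _ 0 x (by intro i hi; omega), cnt_eq_maj n _ 1 x (by intro i hi; omega),
    cnt_eq_maj n _ 2 x (by intro i hi; omega)]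

end Helper99.XM
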