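import Mathlib

/-!
# A polynomial time TM2 machine for the XOR of three majorities
-/

namespace Helper99.XM

open Turing StateTransition

/-- signed unary counter: the head is the sign, the length is the absolute value -/
def add (b : Bool) (l : List Bool) : List Bool :=
  if l.head? = some (!b) then l.tail else b :: l

abbrev St := Fin 10 → Option Bool

def init : St := fun _ => none

inductive Lab | start | loop | fin | clean
deriving DecidableEq

instance : Fintype Lab := ⟨{Lab.start, Lab.loop, Lab.fin, Lab.clean}, fun x => by cases x <;> simp⟩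

abbrev Stm := TM2.Stmt (fun _ : Fin 4 => Bool) Lab St

abbrev Cf := TM2.Cfg (fun _ : Fin 4 => Bool) Lab St

def getb (i : Fin 10) (s : St) : Bool := (s i).getD false

def popTo (i : Fin 10) (q : Stm) (k : Fin 4 := 0) : Stm :=
  TM2.Stmt.pop k (fun s t => Function.update s i t) q

def peekTo (i : Fin 10) (k : Fin 4) (q : Stm) : Stm :=
  TM2.Stmt.peek k (fun s t => Function.update s i t) q

def upd (k : Fin 4) (i : Fin 10) (q : Stm) : Stm :=
  TM2.Stmt.peek k (fun s t => Function.update s 9 t) <|
  TM2.Stmt.branch (fun s => decide (s 9 = some (!(getb i s))))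
    (TM2.Stmt.pop k (fun s _ => s) q) (TM2.Stmt.push k (getb i) q)

abbrev goto (l : Lab) : Stm := TM2.Stmt.goto (fun _ => l)

def res (s : St) : Bool :=
  xor (decide (s 6 = some true)) (xor (decide (s 7 = some true)) (decide (s 8 = some true)))

def prog : Lab → Stm
  | Lab.start => popTo 0 <| popTo 1 <| popTo 2 <|
      TM2.Stmt.branch (fun s => (s 2).isSome) (upd 1 0 <| upd 2 1 <| upd 3 2 <| goto Lab.loop)
        (goto Lab.fin)
  | Lab.loop => popTo 0 <| popTo 1 <| popTo 2 <| popTo 3 <| popTo 4 <| popTo 5 <|
      TM2.Stmt.branch (fun s => (s 5).isSome)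
        (upd 1 0 <| upd 2 1 <| upd 3 2 <| upd 1 3 <| upd 2 4 <| upd 3 5 <| goto Lab.loop)
        (goto Lab.fin)
  | Lab.fin => peekTo 6 1 <| peekTo 7 2 <| peekTo 8 3 <| goto Lab.clean
  | Lab.clean => popTo 0 (k := 1) <| popTo 1 (k := 2) <| popTo 2 (k := 3) <|
      TM2.Stmt.branch (fun s => (s 0).isNone && (s 1).isNone && (s 2).isNone)
        (TM2.Stmt.push 0 res <| TM2.Stmt.load (fun _ => init) TM2.Stmt.halt)
        (goto Lab.clean)

/-- the stacks -/
def stk (I A B C : List Bool) : ∀ _ : Fin 4, List Bool := ![I, A, B, C]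

@[simp] lemma stk0 (I A B C : List Bool) : stk I A B C 0 = I := rfl
@[simp] lemma stk1 (I A B C : List Bool) : stk I A B C 1 = A := rfl
@[simp] lemma stk2 (I A B C : List Bool) : stk I A B C 2 = B := rfl
@[simp] lemma stk3 (I A B C : List Bool) : stk I A B C 3 = C := rfl

@[simp] lemma upd0 (I A B C J : List Bool) : Function.update (stk I A B C) 0 J = stk J A B C := by
  funext i; fin_cases i <;> rfl
@[simp] lemma upd1 (I A B C J : List Bool) : Function.update (stk I A B C) 1 J = stk I J B C := by
  funext i; fin_cases i <;> rfl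
@[simp] lemma upd2 (I A B C J : List Bool) : Function.update (stk I A B C) 2 J = stk I A J C := by
  funext i; fin_cases i <;> rfl
@[simp] lemma upd3 (I A B C J : List Bool) : Function.update (stk I A B C) 3 J = stk I A B J := by
  funext i; fin_cases i <;> rfl

lemma stepAux_popTo (i : Fin 10) (q : Stm) (k : Fin 4) (v : St) (S : Fin 4 → List Bool) :
    TM2.stepAux (popTo i q k) v S =
      TM2.stepAux q (Function.update v i (S k).head?) (Function.update S k (S k).tail) := rfl

lemma stepAux_peekTo (i : Fin 10) (q : Stm) (k : Fin 4) (v : St) (S : Fin 4 → List Bool) :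
    TM2.stepAux (peekTo i k q) v S =
      TM2.stepAux q (Function.update v i (S k).head?) S := rfl

lemma stepAux_upd (k : Fin 4) (i : Fin 10) (hi : i ≠ 9) (q : Stm) (v : St)
    (S : Fin 4 → List Bool) :
    TM2.stepAux (upd k i q) v S =
      TM2.stepAux q (Function.update v 9 (S k).head?)
        (Function.update S k (add (getb i v) (S k))) := by
  unfold upd
  simp only [TM2.stepAux, add, getb, Function.update_self, Function.update_of_ne hi]
  by_cases h : (S k).head? = some (!((v i).getD false))
  · simp [h]
  · simp [h]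

/-- iterate of the step function -/
def R (n : ℕ) (a b : Cf) : Prop := (flip bind (TM2.step prog))^[n] (some a) = some b

lemma R.trans {m n : ℕ} {a b c : Cf} (h : R m a b) (h' : R n b c) : R (n + m) a c := by
  unfold R at *
  rw [Function.iterate_add_apply, h, h']

lemma R.one {a b : Cf} (h : TM2.step prog a = some b) : R 1 a b := h

/-- the three counters after a group of six input bits -/
def groups : List Bool → List Bool × List Bool × List Bool → List Bool × List Bool × List Bool
  | a :: b :: c :: d :: e :: f :: l, (A, B, C) =>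
      groups l (add d (add a A), add e (add b B), add f (add c C))
  | _, acc => acc

lemma groups_short (l : List Bool) (acc : List Bool × List Bool × List Bool) (h : l.length < 6) :
    groups l acc = acc := by
  rcases l with _ | ⟨a, _ | ⟨b, _ | ⟨c, _ | ⟨d, _ | ⟨e, _ | ⟨f, l⟩⟩⟩⟩⟩⟩ <;>
    first | rfl | (simp at h; omega)

def top (l : List Bool) : Bool := decide (l.head? = some true)

def out (acc : List Bool × List Bool × List Bool) : Bool :=
  xor (top acc.1) (xor (top acc.2.1) (top acc.2.2))

def F : List Bool → Bool
  | a :: b :: c :: l => out (groups l (add a [], add b [], add c []))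
  | _ => false

lemma step_loop_long (a b c d e f : Bool) (l A B C : List Bool) (v : St) :
    ∃ v', TM2.step prog ⟨some Lab.loop, v, stk (a :: b :: c :: d :: e :: f :: l) A B C⟩ =
      some ⟨some Lab.loop, v', stk l (add d (add a A)) (add e (add b B)) (add f (add c C))⟩ := by
  simp only [TM2.step, prog, stepAux_popTo, stk0, upd0, List.head?_cons, List.tail_cons,
    TM2.stepAux]
  rw [Function.update_self, Option.isSome_some, cond_true]
  rw [stepAux_upd _ _ (by decide), stepAux_upd _ _ (by decide), stepAux_upd _ _ (by decide),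
    stepAux_upd _ _ (by decide), stepAux_upd _ _ (by decide), stepAux_upd _ _ (by decide)]
  simp only [TM2.stepAux, upd1, upd2, upd3, stk1, stk2, stk3]
  exact ⟨_, rfl⟩

lemma step_loop_short (l A B C : List Bool) (v : St) (h : l.length < 6) :
    ∃ v', TM2.step prog ⟨some Lab.loop, v, stk l A B C⟩ =
      some ⟨some Lab.fin, v', stk [] A B C⟩ := by
  rcases l with _ | ⟨a, _ | ⟨b, _ | ⟨c, _ | ⟨d, _ | ⟨e, _ | ⟨f, l⟩⟩⟩⟩⟩⟩
  all_goals first
    | (simp at h; omega)
    | (simp only [TM2.step, prog, stepAux_popTo, stk0, upd0, List.head?_cons, List.tail_cons,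
         List.head?_nil, List.tail_nil, TM2.stepAux, Function.update_self, Option.isSome_none,
         cond_false]
       exact ⟨_, rfl⟩)

lemma step_start_long (a b c : Bool) (l : List Bool) (v : St) :
    ∃ v', TM2.step prog ⟨some Lab.start, v, stk (a :: b :: c :: l) [] [] []⟩ =
      some ⟨some Lab.loop, v', stk l (add a []) (add b []) (add c [])⟩ := by
  simp only [TM2.step, prog, stepAux_popTo, stk0, upd0, List.head?_cons, List.tail_cons,
    TM2.stepAux]
  rw [Function.update_self, Option.isSome_some, cond_true]
  rw [stepAux_upd _ _ (by decide), stepAux_upd _ _ (by decide), stepAux_upd _ _ (by decide)]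
  simp only [TM2.stepAux, upd1, upd2, upd3, stk1, stk2, stk3]
  exact ⟨_, rfl⟩

lemma step_start_short (l A B C : List Bool) (v : St) (h : l.length < 3) :
    ∃ v', TM2.step prog ⟨some Lab.start, v, stk l A B C⟩ =
      some ⟨some Lab.fin, v', stk [] A B C⟩ := by
  rcases l with _ | ⟨a, _ | ⟨b, _ | ⟨c, l⟩⟩⟩
  all_goals first
    | (simp at h; omega)
    | (simp only [TM2.step, prog, stepAux_popTo, stk0, upd0, List.head?_cons, List.tail_cons,
         List.head?_nil, List.tail_nil, TM2.stepAux, Function.update_self, Option.isSome_none,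
         cond_false]
       exact ⟨_, rfl⟩)

lemma step_fin (A B C : List Bool) (v : St) :
    ∃ v', TM2.step prog ⟨some Lab.fin, v, stk [] A B C⟩ =
      some ⟨some Lab.clean, v', stk [] A B C⟩ ∧ res v' = out (A, B, C) := by
  refine ⟨_, rfl, ?_⟩
  simp [res, out, top, Function.update, stk]

lemma step_clean_end (v : St) :
    TM2.step prog ⟨some Lab.clean, v, stk [] [] [] []⟩ = some ⟨none, init, stk [res v] [] [] []⟩ := by
  simp only [TM2.step, prog, stepAux_popTo, TM2.stepAux, stk1, stk2, stk3, List.head?_nil,
    List.tail_nil, upd1, upd2, upd3]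
  simp [Function.update, res]

lemma step_clean (A B C : List Bool) (v : St) (h : ¬ (A = [] ∧ B = [] ∧ C = [])) :
    ∃ v', TM2.step prog ⟨some Lab.clean, v, stk [] A B C⟩ =
      some ⟨some Lab.clean, v', stk [] A.tail B.tail C.tail⟩ ∧ res v' = res v := by
  simp only [TM2.step, prog, stepAux_popTo, TM2.stepAux, stk1, stk2, stk3, upd1, upd2, upd3]
  have : ((Function.update (Function.update (Function.update v 0 A.head?) 1 B.head?) 2 C.head? 0).isNone
    && (Function.update (Function.update (Function.update v 0 A.head?) 1 B.head?) 2 C.head? 1).isNone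
    && (Function.update (Function.update (Function.update v 0 A.head?) 1 B.head?) 2 C.head? 2).isNone)
      = false := by
    rcases A with _ | ⟨a, A⟩
    · rcases B with _ | ⟨b, B⟩
      · rcases C with _ | ⟨c, C⟩
        · simp at h
        · simp [Function.update]
      · simp [Function.update]
    · simp [Function.update]
  rw [this, cond_false]
  refine ⟨_, rfl, ?_⟩
  simp [res, Function.update]

lemma R_clean (n : ℕ) : ∀ (A B C : List Bool) (v : St), A.length ≤ n → B.length ≤ n →
    C.length ≤ n → ∃ k, k ≤ n + 1 ∧ R k ⟨some Lab.clean, v, stk [] A B C⟩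
      ⟨none, init, stk [res v] [] [] []⟩ := by
  induction n with
  | zero =>
    intro A B C v hA hB hC
    obtain rfl : A = [] := by simpa using hA
    obtain rfl : B = [] := by simpa using hB
    obtain rfl : C = [] := by simpa using hC
    exact ⟨1, by omega, R.one (step_clean_end v)⟩
  | succ n ih =>
    intro A B C v hA hB hC
    by_cases h : A = [] ∧ B = [] ∧ C = []
    · obtain ⟨rfl, rfl, rfl⟩ := h
      exact ⟨1, by omega, R.one (step_clean_end v)⟩
    · obtain ⟨v', h1, h2⟩ := step_clean A B C v h
      obtain ⟨k, hk, h3⟩ := ih A.tail B.tail C.tail v' (by simp; omega) (by simp; omega)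
        (by simp; omega)
      refine ⟨k + 1, by omega, ?_⟩
      rw [← h2]
      exact R.trans (R.one h1) h3

lemma add_length (b : Bool) (l : List Bool) : (add b l).length ≤ l.length + 1 := by
  unfold add
  split_ifs
  · simp; omega
  · simp

lemma groups_length (n : ℕ) : ∀ (l A B C : List Bool), l.length ≤ n →
    (groups l (A, B, C)).1.length ≤ A.length + n ∧ (groups l (A, B, C)).2.1.length ≤ B.length + n ∧
      (groups l (A, B, C)).2.2.length ≤ C.length + n := by
  induction n using Nat.strong_induction_on with
  | _ n ih =>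
    intro l A B C hl
    by_cases h : l.length < 6
    · rw [groups_short _ _ h]
      refine ⟨?_, ?_, ?_⟩ <;> simp
    · rcases l with _ | ⟨a, _ | ⟨b, _ | ⟨c, _ | ⟨d, _ | ⟨e, _ | ⟨f, l⟩⟩⟩⟩⟩⟩
      all_goals first
        | (exfalso; apply h; simp; done)
        | skip
      simp only [List.length_cons] at hl
      obtain ⟨h1, h2, h3⟩ := ih (n - 6) (by omega) l (add d (add a A)) (add e (add b B))
        (add f (add c C)) (by omega)
      have e1 := add_length d (add a A)
      have e2 := add_length a A
      have e3 := add_length e (add b B)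
      have e4 := add_length b B
      have e5 := add_length f (add c C)
      have e6 := add_length c C
      simp only [groups]
      refine ⟨?_, ?_, ?_⟩ <;> omega

lemma R_loop (n : ℕ) : ∀ (l A B C : List Bool) (v : St), l.length ≤ n →
    ∃ k v', k ≤ n + 1 ∧ R k ⟨some Lab.loop, v, stk l A B C⟩
      ⟨some Lab.fin, v', stk [] (groups l (A, B, C)).1 (groups l (A, B, C)).2.1
        (groups l (A, B, C)).2.2⟩ := by
  induction n using Nat.strong_induction_on with
  | _ n ih =>
    intro l A B C v hl
    by_cases h : l.length < 6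
    · rw [groups_short _ _ h]
      obtain ⟨v', h1⟩ := step_loop_short l A B C v h
      exact ⟨1, v', by omega, R.one h1⟩
    · rcases l with _ | ⟨a, _ | ⟨b, _ | ⟨c, _ | ⟨d, _ | ⟨e, _ | ⟨f, l⟩⟩⟩⟩⟩⟩
      all_goals first
        | (exfalso; apply h; simp; done)
        | skip
      simp only [List.length_cons] at hl
      obtain ⟨v1, h1⟩ := step_loop_long a b c d e f l A B C v
      obtain ⟨k, v', hk, h2⟩ := ih (n - 6) (by omega) l (add d (add a A)) (add e (add b B))
        (add f (add c C)) v1 (by omega)
      exact ⟨k + 1, v', by omega, R.trans (R.one h1) h2⟩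

lemma R_fin (n : ℕ) (A B C : List Bool) (v : St) (hA : A.length ≤ n) (hB : B.length ≤ n)
    (hC : C.length ≤ n) : ∃ k, k ≤ n + 2 ∧ R k ⟨some Lab.fin, v, stk [] A B C⟩
      ⟨none, init, stk [out (A, B, C)] [] [] []⟩ := by
  obtain ⟨v', h1, h2⟩ := step_fin A B C v
  obtain ⟨k, hk, h3⟩ := R_clean n A B C v' hA hB hC
  refine ⟨k + 1, by omega, ?_⟩
  rw [← h2]
  exact R.trans (R.one h1) h3

lemma R_all (l : List Bool) : ∃ k, k ≤ 2 * l.length + 5 ∧ R k ⟨some Lab.start, init, stk l [] [] []⟩
      ⟨none, init, stk [F l] [] [] []⟩ := by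
  by_cases h : l.length < 3
  · obtain ⟨v', h1⟩ := step_start_short l [] [] [] init h
    obtain ⟨k, hk, h2⟩ := R_fin 0 [] [] [] v' (by simp) (by simp) (by simp)
    have : F l = out ([], [], []) := by
      rcases l with _ | ⟨a, _ | ⟨b, _ | ⟨c, l⟩⟩⟩
      all_goals first
        | (simp at h; omega)
        | rfl
    rw [this]
    exact ⟨k + 1, by omega, R.trans (R.one h1) h2⟩
  · rcases l with _ | ⟨a, _ | ⟨b, _ | ⟨c, l⟩⟩⟩
    all_goals first
      | (exfalso; apply h; simp; done)
      | skip
    obtain ⟨v1, h1⟩ := step_start_long a b c l init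
    obtain ⟨k, v', hk, h2⟩ := R_loop l.length l (add a []) (add b []) (add c []) v1 le_rfl
    obtain ⟨g1, g2, g3⟩ := groups_length l.length l (add a []) (add b []) (add c []) le_rfl
    have e1 := add_length a []
    have e2 := add_length b []
    have e3 := add_length c []
    simp only [List.length_nil] at e1 e2 e3
    obtain ⟨k', hk', h3⟩ := R_fin (l.length + 1) _ _ _ v' (g1.trans (by omega))
      (g2.trans (by omega)) (g3.trans (by omega))
    refine ⟨k' + (k + 1), by simp only [List.length_cons]; omega, ?_⟩
    exact R.trans (R.trans (R.one h1) h2) h3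

/-- the machine -/
def M : FinTM2 where
  K := Fin 4
  k₀ := 0
  k₁ := 0
  Γ _ := Bool
  Λ := Lab
  main := Lab.start
  σ := St
  initialState := init
  m := prog

lemma initList_eq (l : List Bool) : initList M l = (⟨some Lab.start, init, stk l [] [] []⟩ : Cf) := by
  unfold initList
  congr 1
  funext k
  revert k
  change ∀ k : Fin 4, _
  intro k
  fin_cases k <;> rfl

lemma haltList_eq (l : List Bool) : haltList M l = (⟨none, init, stk l [] [] []⟩ : Cf) := by
  unfold haltList
  congr 1
  funext k
  revert k
  change ∀ k : Fin 4, _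
  intro k
  fin_cases k <;> rfl

theorem outputs (l : List Bool) :
    Nonempty (TM2OutputsInTime M l (some [F l]) (2 * l.length + 5)) := by
  obtain ⟨k, hk, h⟩ := R_all l
  refine ⟨⟨⟨k, ?_⟩, hk⟩⟩
  have e1 := initList_eq l
  have e2 := haltList_eq [F l]
  unfold R at h
  rw [← e1, ← e2] at h
  exact h

noncomputable def computable : TM2ComputableInPolyTime (id : List Bool → List Bool)
    Computability.encodeBool F where
  tm := M
  inputAlphabet := Equiv.refl Bool
  outputAlphabet := Equiv.refl Bool
  time := 2 * Polynomial.X + 5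
  outputsFun l := by
    have h := Classical.choice (outputs l)
    have e1 : (List.map (Equiv.refl Bool).invFun (id l) : List Bool) = l := List.map_id l
    have e3 : Polynomial.eval (id l).length (2 * Polynomial.X + 5 : Polynomial ℕ)
        = 2 * l.length + 5 := by simp
    have key : ∀ (l' : List Bool) (m : ℕ), l' = l → m = 2 * l.length + 5 →
        TM2OutputsInTime M l' (some [F l]) m := by
      rintro _ _ rfl rfl
      exact h
    exact key _ _ e1 e3

theorem computable_finite (k : computable.tm.K) : Finite (computable.tm.Γ k) := by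
  change Finite Bool
  infer_instance

end Helper99.XM
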